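import Mathlib

/-!
# MP_4101c8_co: connected graphs with `δ* = 4` which exceed `2n/5 + 2` and `4n/5`

Let `H` be the disjoint union of `t ≥ 2` copies of the bipartite complement of the Heawood graph and let
`G` be the complement of `H`.  Then `G` is connected of order `n = 14 t`, `δ*(G) = 4`, `γ_t(G) = 2` and
`γ_t(Gᶜ) = 6 t = 3 n / 7`.  So `γ_t(G) + γ_t(Gᶜ) = 3 n / 7 + 2 > 2 n / 5 + 2` and
`γ_t(G) γ_t(Gᶜ) = 6 n / 7 > 4 n / 5`.
-/

set_option autoImplicit false

open Finset

namespace Pool.Agent.Results.MP_4101c8_co.DenseCounterexamples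

/-- `S` is a total dominating set of `G`: every vertex has a neighbour in `S` -/
def TotalDominating {V : Type} (G : SimpleGraph V) (S : Finset V) : Prop :=
  ∀ v, ∃ u ∈ S, G.Adj v u

/-- the total domination number: the least number of elements of a total dominating set -/
noncomputable def gammaT {V : Type} (G : SimpleGraph V) : ℕ :=
  sInf {k | ∃ S : Finset V, TotalDominating G S ∧ S.card = k}

open Classical in
/-- the smaller one of the minimum degrees of `G` and of its complement -/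
noncomputable def deltaStar {V : Type} [Fintype V] (G : SimpleGraph V) : ℕ :=
  min G.minDegree Gᶜ.minDegree

/-- the complement of a line of the Fano plane -/
def D : Finset (ZMod 7) := {0, 3, 5, 6}

/-- `t` disjoint copies of the bipartite complement of the Heawood graph -/
def H (t : ℕ) : SimpleGraph (Fin t × Bool × ZMod 7) where
  Adj u v := u.1 = v.1 ∧ u.2.1 ≠ v.2.1 ∧ u.2.2 + v.2.2 ∈ D
  symm := ⟨by
    rintro u v ⟨h1, h2, h3⟩
    exact ⟨h1.symm, h2.symm, by rwa [add_comm]⟩⟩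
  loopless := ⟨fun u h => h.2.1 rfl⟩

lemma two_fail : ∀ a b : ZMod 7, ∃ x : ZMod 7, x + a ∉ D ∧ x + b ∉ D := by decide

lemma three_ok : ∀ x : ZMod 7, ∃ y ∈ ({0, 1, 2} : Finset (ZMod 7)), x + y ∈ D := by decide

lemma three_le {T : Finset (ZMod 7)} (h : ∀ x, ∃ y ∈ T, x + y ∈ D) : 3 ≤ T.card := by
  by_contra hc
  have h2 : T.card ≤ 2 := by omega
  obtain ⟨T', hT, hT'⟩ := exists_superset_card_eq (s := T) (n := 2) h2 (by decide)
  obtain ⟨a, b, -, rfl⟩ := card_eq_two.1 hT'
  obtain ⟨x, hx1, hx2⟩ := two_fail a b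
  obtain ⟨y, hy, hxy⟩ := h x
  have := hT hy
  simp only [mem_insert, mem_singleton] at this
  rcases this with rfl | rfl
  · exact hx1 hxy
  · exact hx2 hxy

lemma lower {t : ℕ} {S : Finset (Fin t × Bool × ZMod 7)} (h : TotalDominating (H t) S) :
    6 * t ≤ S.card := by
  classical
  have h1 : S.card = ∑ p : Fin t × Bool, (S.filter (fun v => (v.1, v.2.1) = p)).card :=
    card_eq_sum_card_fiberwise (fun _ _ => mem_univ _)
  have h2 : ∀ p : Fin t × Bool, 3 ≤ (S.filter (fun v => (v.1, v.2.1) = p)).card := by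
    intro p
    have h3 : 3 ≤ ((S.filter (fun v => (v.1, v.2.1) = p)).image (fun v => v.2.2)).card := by
      apply three_le
      intro x
      obtain ⟨u, hu, h4, h5, h6⟩ := h (p.1, !p.2, x)
      refine ⟨u.2.2, ?_, h6⟩
      rw [mem_image]
      refine ⟨u, ?_, rfl⟩
      rw [mem_filter]
      refine ⟨hu, ?_⟩
      have h7 : u.2.1 = p.2 := by
        have h8 : (!p.2) ≠ u.2.1 := h5
        revert h8
        cases p.2 <;> cases u.2.1 <;> decide
      have h8 : p.1 = u.1 := h4
      rw [h7, ← h8]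
    exact h3.trans card_image_le
  rw [h1]
  calc 6 * t = ∑ p : Fin t × Bool, 3 := by
        rw [sum_const, card_univ, Fintype.card_prod, Fintype.card_fin, Fintype.card_bool]
        simp only [smul_eq_mul]
        ring
    _ ≤ _ := sum_le_sum fun p _ => h2 p

lemma upper (t : ℕ) : ∃ S : Finset (Fin t × Bool × ZMod 7), TotalDominating (H t) S ∧
    S.card = 6 * t := by
  refine ⟨(univ : Finset (Fin t)) ×ˢ ((univ : Finset Bool) ×ˢ ({0, 1, 2} : Finset (ZMod 7))),
    ?_, ?_⟩
  · rintro ⟨i, s, x⟩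
    obtain ⟨y, hy, hxy⟩ := three_ok x
    refine ⟨(i, !s, y), ?_, rfl, ?_, hxy⟩
    · simp only [mem_product, mem_univ, true_and]
      exact hy
    · show s ≠ !s
      cases s <;> decide
  · rw [card_product, card_product, card_univ, card_univ, Fintype.card_fin, Fintype.card_bool]
    have : ({0, 1, 2} : Finset (ZMod 7)).card = 3 := by decide
    rw [this]
    ring

lemma gammaT_H (t : ℕ) : gammaT (H t) = 6 * t := by
  unfold gammaT
  apply le_antisymm
  · exact Nat.sInf_le (upper t)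
  · refine le_csInf ⟨6 * t, upper t⟩ ?_
    rintro k ⟨S, hS, rfl⟩
    exact lower hS

lemma adj_compl {t : ℕ} {u v : Fin t × Bool × ZMod 7} (h : u.1 ≠ v.1) : (H t)ᶜ.Adj u v := by
  rw [SimpleGraph.compl_adj]
  exact ⟨fun e => h (by rw [e]), fun e => h e.1⟩

lemma gammaT_compl {t : ℕ} (ht : 2 ≤ t) : gammaT (H t)ᶜ = 2 := by
  have h01 : (⟨0, by omega⟩ : Fin t) ≠ ⟨1, by omega⟩ := by simp
  have hS : ∃ S : Finset (Fin t × Bool × ZMod 7), TotalDominating (H t)ᶜ S ∧ S.card = 2 := by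
    refine ⟨{(⟨0, by omega⟩, false, 0), (⟨1, by omega⟩, false, 0)}, ?_, ?_⟩
    · intro v
      by_cases hv : v.1 = ⟨0, by omega⟩
      · refine ⟨(⟨1, by omega⟩, false, 0), by simp, adj_compl ?_⟩
        rw [hv]
        exact h01
      · exact ⟨(⟨0, by omega⟩, false, 0), by simp, adj_compl hv⟩
    · rw [card_pair]
      intro e
      exact h01 (congrArg Prod.fst e)
  unfold gammaT
  apply le_antisymm
  · exact Nat.sInf_le hS
  · refine le_csInf ⟨2, hS⟩ ?_
    rintro k ⟨S, hS1, rfl⟩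
    obtain ⟨u, hu, -⟩ := hS1 (⟨0, by omega⟩, false, 0)
    obtain ⟨w, hw, huw⟩ := hS1 u
    exact one_lt_card.2 ⟨u, hu, w, hw, huw.ne⟩

lemma connected_compl {t : ℕ} (ht : 2 ≤ t) : (H t)ᶜ.Connected := by
  have : Nonempty (Fin t × Bool × ZMod 7) := ⟨(⟨0, by omega⟩, false, 0)⟩
  refine ⟨fun u v => ?_⟩
  by_cases h : u.1 = v.1
  · obtain ⟨j, hj⟩ : ∃ j : Fin t, j ≠ u.1 := by
      have : Nontrivial (Fin t) := Fin.nontrivial_iff_two_le.2 ht
      exact exists_ne u.1
    have h1 : (H t)ᶜ.Adj u (j, false, 0) := adj_compl hj.symm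
    have h2 : (H t)ᶜ.Adj (j, false, 0) v := adj_compl (by rw [← h]; exact hj)
    exact h1.reachable.trans h2.reachable
  · exact (adj_compl h).reachable

lemma degree_H {t : ℕ} (v : Fin t × Bool × ZMod 7) [Fintype ((H t).neighborSet v)] :
    (H t).degree v = 4 := by
  classical
  have h1 : (H t).neighborFinset v = D.image (fun d => (v.1, !v.2.1, d - v.2.2)) := by
    ext u
    rw [SimpleGraph.mem_neighborFinset, mem_image]
    constructor
    · rintro ⟨h1, h2, h3⟩
      refine ⟨v.2.2 + u.2.2, h3, ?_⟩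
      have h4 : (!v.2.1) = u.2.1 := by
        revert h2
        cases v.2.1 <;> cases u.2.1 <;> decide
      rw [h4, h1, add_sub_cancel_left]
    · rintro ⟨d, hd, rfl⟩
      refine ⟨rfl, ?_, ?_⟩
      · show v.2.1 ≠ !v.2.1
        cases v.2.1 <;> decide
      · show v.2.2 + (d - v.2.2) ∈ D
        rw [add_sub_cancel]
        exact hd
  rw [← SimpleGraph.card_neighborFinset_eq_degree, h1, card_image_of_injective]
  · decide
  · intro d d' h
    simp only [Prod.mk.injEq, true_and] at h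
    exact sub_left_injective h

lemma degree_cc {t : ℕ} (v : Fin t × Bool × ZMod 7) [Fintype ((H t)ᶜᶜ.neighborSet v)] :
    (H t)ᶜᶜ.degree v = 4 := by
  have key : ∀ (G : SimpleGraph (Fin t × Bool × ZMod 7)) (_ : G = H t)
      [Fintype (G.neighborSet v)], G.degree v = 4 := by
    rintro G rfl _
    exact degree_H v
  exact key _ (compl_compl _)

lemma degree_c {t : ℕ} (ht : 2 ≤ t) (v : Fin t × Bool × ZMod 7)
    [Fintype ((H t)ᶜ.neighborSet v)] : 4 ≤ (H t)ᶜ.degree v := by
  classical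
  have hcard : Fintype.card (Fin t × Bool × ZMod 7) = 14 * t := by
    rw [Fintype.card_prod, Fintype.card_prod, Fintype.card_fin, Fintype.card_bool, ZMod.card]
    ring
  have h1 := SimpleGraph.degree_compl (H t) v
  rw [degree_H, hcard] at h1
  rw [h1]
  omega

lemma minDeg_cc {t : ℕ} (ht : 2 ≤ t) [DecidableRel (H t)ᶜᶜ.Adj] : (H t)ᶜᶜ.minDegree = 4 := by
  have : Nonempty (Fin t × Bool × ZMod 7) := ⟨(⟨0, by omega⟩, false, 0)⟩
  obtain ⟨v, hv⟩ := (H t)ᶜᶜ.exists_minimal_degree_vertex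
  rw [hv, degree_cc]

lemma minDeg_c {t : ℕ} (ht : 2 ≤ t) [DecidableRel (H t)ᶜ.Adj] : 4 ≤ (H t)ᶜ.minDegree := by
  have : Nonempty (Fin t × Bool × ZMod 7) := ⟨(⟨0, by omega⟩, false, 0)⟩
  obtain ⟨v, hv⟩ := (H t)ᶜ.exists_minimal_degree_vertex
  rw [hv]
  exact degree_c ht v

lemma minDegree_congr {V : Type} [Fintype V] (G : SimpleGraph V) (i j : DecidableRel G.Adj) :
    @SimpleGraph.minDegree V G _ i = @SimpleGraph.minDegree V G _ j := by
  have h : i = j := Subsingleton.elim i j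
  subst h
  rfl

lemma deltaStar_compl {t : ℕ} (ht : 2 ≤ t) : deltaStar (H t)ᶜ = 4 := by
  classical
  have h1 := minDeg_cc ht
  have h2 := minDeg_c ht
  unfold deltaStar
  apply le_antisymm
  · exact (min_le_right _ _).trans (le_of_eq ((minDegree_congr _ _ _).trans h1))
  · exact le_min (h2.trans (le_of_eq (minDegree_congr _ _ _)))
      (ge_of_eq ((minDegree_congr _ _ _).trans h1))

/-- For every `t ≥ 2` there is a connected graph `G` of order `n = 14 t` with `δ*(G) = 4`,
`γ_t(G) = 2`, `γ_t(Gᶜ) = 6 t = 3 n / 7`; in particular `γ_t(G) + γ_t(Gᶜ) > 2 n / 5 + 2` and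
`γ_t(G) γ_t(Gᶜ) > 4 n / 5`. -/
theorem result (t : ℕ) (ht : 2 ≤ t) :
    ∃ (V : Type) (_ : Fintype V) (G : SimpleGraph V), Fintype.card V = 14 * t ∧ G.Connected ∧
      deltaStar G = 4 ∧ gammaT G = 2 ∧ gammaT Gᶜ = 6 * t ∧
      2 * (Fintype.card V : ℝ) / 5 + 2 < gammaT G + gammaT Gᶜ ∧
      4 * (Fintype.card V : ℝ) / 5 < gammaT G * gammaT Gᶜ := by
  have hcard : Fintype.card (Fin t × Bool × ZMod 7) = 14 * t := by
    rw [Fintype.card_prod, Fintype.card_prod, Fintype.card_fin, Fintype.card_bool, ZMod.card]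
    ring
  have h1 := gammaT_compl ht
  have h2 : gammaT (H t)ᶜᶜ = 6 * t := by rw [compl_compl, gammaT_H]
  have h3 : (2 : ℝ) ≤ t := by exact_mod_cast ht
  refine ⟨Fin t × Bool × ZMod 7, inferInstance, (H t)ᶜ, hcard, connected_compl ht,
    deltaStar_compl ht, h1, h2, ?_, ?_⟩
  · rw [h1, h2, hcard]
    push_cast
    linarith
  · rw [h1, h2, hcard]
    push_cast
    linarith

end Pool.Agent.Results.MP_4101c8_co.DenseCounterexamples
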